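import Mathlib

set_option autoImplicit false

namespace Pool.Agent.Results.MP_2e17cf_an.Counter

open Matrix Filter Topology

variable {n : ℕ}

/-- the objective `½ xᵀQx + cᵀx` -/
noncomputable def obj (Q : Matrix (Fin n) (Fin n) ℝ) (c x : Fin n → ℝ) : ℝ := 1 / 2 * (x ⬝ᵥ Q *ᵥ x) + c ⬝ᵥ x

/-- the constraint function `xᵀAx + 2bᵀx + d` -/
def con (A : Matrix (Fin n) (Fin n) ℝ) (b : Fin n → ℝ) (d : ℝ) (x : Fin n → ℝ) : ℝ := x ⬝ᵥ A *ᵥ x + 2 * (b ⬝ᵥ x) + d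

lemma move {F : Set (Fin 2 → ℝ)} {f : (Fin 2 → ℝ) → ℝ} {z : Fin 2 → ℝ} (h : IsLocalMinOn f F z) (γ : ℝ → Fin 2 → ℝ)
    (c : Continuous γ) (e : γ 0 = z) (m : ∀ᶠ t in 𝓝[>] 0, γ t ∈ F ∧ f (γ t) < f z) : False := by
  have : Tendsto γ (𝓝[>] 0) (𝓝[F] z) := tendsto_nhdsWithin_iff.2
    ⟨(e ▸ c.tendsto 0).mono_left nhdsWithin_le_nhds, m.mono fun _ h => h.1⟩
  obtain ⟨t, a, b⟩ := ((this.eventually h).and m).exists
  exact a.not_gt b.2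

lemma lo {x y : ℝ} (h : 9 * x ^ 2 + (y - 2) ^ 2 - 25 / 4 ≤ 0) : -1 / 2 ≤ y := by nlinarith

lemma cmp {x y u v : ℝ} (a : x ^ 2 + (y + 1) ^ 2 - 4 ≤ 0) (b : 9 * x ^ 2 + (y - 2) ^ 2 - 25 / 4 ≤ 0)
    (c : u ^ 2 + (v + 1) ^ 2 - 4 = 0) (d : 9 * u ^ 2 + (v - 2) ^ 2 - 25 / 4 = 0) (p : 0 < v) :
    -(u ^ 2 + v ^ 2) ≤ -(x ^ 2 + y ^ 2) := by
  have := lo b
  rcases le_total v y with e | e
  · linarith
  · rcases le_total y 0 with f | f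
    · nlinarith [mul_nonneg (neg_nonneg.2 f) (show 0 ≤ 2 * y + 1 by linarith)]
    · nlinarith [mul_nonneg (sub_nonneg.2 e) (add_nonneg p.le f)]

lemma pos {x y : ℝ} (h : 9 * x ^ 2 + (y - 2) ^ 2 - 25 / 4 ≤ 0) (l : -(x ^ 2 + y ^ 2) < -1 / 2) : 0 < y := by
  have := lo h
  by_contra c
  nlinarith [mul_nonneg (neg_nonneg.2 (not_lt.1 c)) (show 0 ≤ 2 * y + 1 by linarith)]

theorem result : ∃ (n : ℕ) (Q A₁ A₂ : Matrix (Fin n) (Fin n) ℝ) (c b₁ b₂ : Fin n → ℝ) (d₁ d₂ : ℝ)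
    (F : Set (Fin n → ℝ)), Q.IsSymm ∧ A₁.PosDef ∧ A₂.PosDef ∧ F = {x | con A₁ b₁ d₁ x ≤ 0 ∧ con A₂ b₂ d₂ x ≤ 0} ∧
    (∃ z ∈ F, IsLocalMinOn (obj Q c) F z ∧ ¬ IsMinOn (obj Q c) F z) ∧
    ∃ x ∈ F, (∃ μ₁ μ₂ : ℝ, 0 ≤ μ₁ ∧ 0 ≤ μ₂ ∧
        Q *ᵥ x + c + μ₁ • ((2 : ℝ) • (A₁ *ᵥ x + b₁)) + μ₂ • ((2 : ℝ) • (A₂ *ᵥ x + b₂)) = 0 ∧
        μ₁ * con A₁ b₁ d₁ x = 0 ∧ μ₂ * con A₂ b₂ d₂ x = 0) ∧ ¬ IsMinOn (obj Q c) F x ∧
      ∃ v, obj Q c x < v ∧ ∀ z ∈ F, IsLocalMinOn (obj Q c) F z → ¬ IsMinOn (obj Q c) F z → v ≤ obj Q c z := by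
  have o : obj (diagonal ![-2, -2]) 0 = fun x => -(x 0 ^ 2 + x 1 ^ 2) := by
    ext x; simp [obj, dotProduct, mulVec_diagonal]; ring
  have c1 : con (diagonal ![1, 1]) ![0, 1] (-3) = fun x => x 0 ^ 2 + (x 1 + 1) ^ 2 - 4 := by
    ext x; simp [con, dotProduct, mulVec_diagonal]; ring
  have c2 : con (diagonal ![9, 1]) ![0, -2] (-9 / 4) = fun x => 9 * x 0 ^ 2 + (x 1 - 2) ^ 2 - 25 / 4 := by
    ext x; simp [con, dotProduct, mulVec_diagonal]; ring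
  refine ⟨2, diagonal ![-2, -2], diagonal ![1, 1], diagonal ![9, 1], 0, ![0, 1], ![0, -2], -3, -9 / 4, _,
    isSymm_diagonal _, .diagonal fun i => by fin_cases i <;> simp, .diagonal fun i => by fin_cases i <;> simp, rfl, ?_⟩
  rw [o, c1, c2]
  have w : ![1 / 2, 9 / 10] ∈ {x : Fin 2 → ℝ | x 0 ^ 2 + (x 1 + 1) ^ 2 - 4 ≤ 0 ∧
      9 * x 0 ^ 2 + (x 1 - 2) ^ 2 - 25 / 4 ≤ 0} := by simp; norm_num
  refine ⟨⟨![0, -1 / 2], by simp; norm_num, ?_, fun h => ?_⟩, ![0, 1], by simp; norm_num,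
    ⟨1 / 2, 0, by norm_num, le_rfl, ?_, by simp; norm_num, by simp⟩, fun h => ?_, -1 / 2, by simp; norm_num,
    fun z ⟨g1, g2⟩ lm ng => not_lt.1 fun lt => ?_⟩
  · have : ∀ᶠ x : Fin 2 → ℝ in 𝓝 ![0, -1 / 2], x 1 < 0 :=
      (continuous_apply 1).continuousAt.eventually_lt continuousAt_const (by simp; norm_num)
    filter_upwards [self_mem_nhdsWithin, mem_nhdsWithin_of_mem_nhds this] with x ⟨_, b⟩ c
    simp only [cons_val_zero, cons_val_one]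
    nlinarith [mul_nonneg (neg_nonneg.2 c.le) (show 0 ≤ 2 * x 1 + 1 by linarith [lo b])]
  · have := h w; simp at this; norm_num at this
  · ext i; fin_cases i <;> simp; norm_num
  · have := h w; simp at this; norm_num at this
  simp only at g1 g2 lt
  have y2 := pos g2 lt
  have y1 : z 1 ≤ 1 := by nlinarith only [g1, y2, sq_nonneg (z 0)]
  have sm : ∀ g : ℝ → ℝ, Continuous g → g 0 < 0 → ∀ᶠ t in 𝓝[>] 0, g t < 0 ∧ 0 < t ∧ t < 1 := fun g c h =>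
    ((c.continuousAt.eventually_lt continuousAt_const h).filter_mono nhdsWithin_le_nhds).and (Ioo_mem_nhdsGT one_pos)
  rcases g1.eq_or_lt with g1 | g1
  swap
  · refine move lm (fun t => ![z 0, z 1 + t]) (by fun_prop) (by ext i; fin_cases i <;> simp)
      ((sm (fun t => z 0 ^ 2 + (z 1 + t + 1) ^ 2 - 4) (by fun_prop) (by simpa using g1)).mono fun t ⟨a, b, c⟩ => ?_)
    simp only [Set.mem_ofPred_eq, cons_val_zero, cons_val_one]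
    exact ⟨⟨a.le, by nlinarith only [g2, y1, b, c]⟩, by nlinarith only [y2, b]⟩
  rcases g2.eq_or_lt with g2 | g2
  · exact ng fun x ⟨a, b⟩ => cmp a b g1 g2 y2
  obtain ⟨σ, s1, s2⟩ : ∃ σ : ℝ, σ ^ 2 = 1 ∧ σ * |z 0| = z 0 := by
    rcases abs_cases (z 0) with c | c
    exacts [⟨1, by simp, by simp [c.1]⟩, ⟨-1, by simp, by simp [c.1]⟩]
  refine move lm (fun t => ![σ * √(z 0 ^ 2 + 2 * (z 1 + 1) * t - t ^ 2), z 1 - t]) (by fun_prop)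
    (by ext i; fin_cases i <;> simp [Real.sqrt_sq_eq_abs, s2])
    ((sm (fun t => 9 * (z 0 ^ 2 + 2 * (z 1 + 1) * t - t ^ 2) + (z 1 - t - 2) ^ 2 - 25 / 4) (by fun_prop)
      (by simpa using g2)).mono fun t ⟨a, b, c⟩ => ?_)
  simp only [Set.mem_ofPred_eq, cons_val_zero, cons_val_one, mul_pow, s1, one_mul]
  rw [Real.sq_sqrt (by nlinarith only [y2, b, c, sq_nonneg (z 0)])]
  exact ⟨⟨by linarith, a.le⟩, by linarith⟩

end Pool.Agent.Results.MP_2e17cf_an.Counter
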